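import Pool.Agent.N407.EP.Stab
import Pool.Agent.Y933.KI.Final
import Pool.Agent.R942.AX.Lim

set_option autoImplicit false

/-!
# The dimension of the set of the exceptional translates
-/

namespace Pool.Agent.N407.EP

open Set MeasureTheory Filter

/-- `φ 0` is close to a function with the derivative `T x ^ (α - 1)` on `[N, 2 N + 1]`: it has there the derivatives `φ 1`,
`φ 2`, ..., and these are the derivatives of that function up to the factor `c`, up to the order `P + 1` -/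
def Near (α c : ℝ) (P N : ℕ) (T : ℝ) (φ : ℕ → ℝ → ℝ) : Prop :=
  (∀ i ≤ P, ∀ x ∈ Icc (N : ℝ) (2 * N + 1), HasDerivAt (φ i) (φ (i + 1) x) x) ∧
  (∀ p ≤ P, ∀ x ∈ Icc (N : ℝ) (2 * N + 1),
    |φ (p + 1) x - T * (∏ i ∈ Finset.range p, (α - 1 - i)) * x ^ (α - 1 - p)| ≤ c * (T * x ^ (α - 1 - p)))

/-- the bound for the translate by `u` of `f` and of the functions `f + t g`, `t N ^ α ≤ N ^ B`, with all real polynomials of
degree at most `d`, over all intervals `[N1, N2]` in `[N, 2 N]`: the sums are at most `(N2 - N1 + 1) ^ (1/2) N ^ ε` -/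
def Good (ε α : ℝ) (B d N : ℕ) (f g : ℝ → ℝ) (u : ℝ) : Prop :=
  ∀ t : ℝ, 0 ≤ t → t * (N : ℝ) ^ α ≤ (N : ℝ) ^ B → ∀ Q : Polynomial ℝ, Q.natDegree ≤ d →
    ∀ N1 N2 : ℕ, N ≤ N1 → N1 ≤ N2 → N2 ≤ 2 * N →
      ‖S f g t Q u N1 N2‖ ≤ ((N2 : ℝ) - N1 + 1) ^ (1 / 2 : ℝ) * (N : ℝ) ^ ε

lemma rpow_sub_one' {N : ℕ} (hN : 1 ≤ N) (α : ℝ) : (N : ℝ) ^ (α - 1) = (N : ℝ) ^ α / N := by
  have hN0 : (0 : ℝ) < N := by exact_mod_cast hN
  rw [Real.rpow_sub_one hN0.ne']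

theorem scale (ε : ℝ) (hε : 0 < ε) (B B' d : ℕ) (hB : B ≤ B') : ∃ A C P : ℕ, ∀ α : ℝ, (∀ m : ℕ, α ≠ m + 1) →
    ∃ (c0 K : ℝ) (N₀ : ℕ), 0 < c0 ∧ 0 ≤ K ∧ 1 ≤ N₀ ∧ ∀ D : ℕ, B ≤ D → ∀ N : ℕ, N₀ ≤ N → ∀ T : ℝ,
      (N : ℝ) ^ A ≤ T * (N : ℝ) ^ α → T * (N : ℝ) ^ α ≤ (N : ℝ) ^ D →
      ∀ φ : ℕ → ℝ → ℝ, Near α (c0 / (N : ℝ) ^ C) P N T φ → ∀ g : ℝ → ℝ, (∀ x : ℝ, 0 < x → HasDerivAt g (x ^ (α - 1)) x) →
      ∀ F : Finset ℕ, (∀ k ∈ F, k < N ^ D ∧ ∃ u ∈ Icc ((k : ℝ) / (N : ℝ) ^ D) (((k : ℝ) + 1) / (N : ℝ) ^ D),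
        u ∈ Icc (0 : ℝ) 1 ∧ ¬ Good ε α B d N (φ 0) g u) →
      (F.card : ℝ) ≤ K * (N : ℝ) ^ D / (N : ℝ) ^ B' := by
  obtain ⟨A, C, P, h0⟩ := Pool.Agent.Y933.KI.final2 (ε / 2) (half_pos hε) B' d
  refine ⟨A, C, P, fun α hα => ?_⟩
  obtain ⟨c0, K, hc0, h1⟩ := h0 α hα
  obtain ⟨W, hW⟩ : ∃ W : ℝ, W = 3 ^ |α - 1| := ⟨_, rfl⟩
  have hW0 : 0 < W := by rw [hW]; positivity
  obtain ⟨R, hR⟩ : ∃ R : ℝ, R = 4 * Real.pi * ((2 + c0) * W) := ⟨_, rfl⟩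
  have hR0 : 0 < R := by rw [hR]; have := Real.pi_pos; positivity
  have htend := (tendsto_rpow_atTop (half_pos hε)).comp (tendsto_natCast_atTop_atTop (R := ℝ))
  obtain ⟨N₁, hN₁⟩ := eventually_atTop.1 (htend.eventually_ge_atTop (R + 1))
  refine ⟨c0, |K|, max N₁ 1, hc0, abs_nonneg _, le_max_right _ _, fun D hBD N hN T hT1 hT2 φ hφ g hg F hF => ?_⟩
  have hN1 : 1 ≤ N := le_trans (le_max_right _ _) hN
  have hN1' : (1 : ℝ) ≤ N := by exact_mod_cast hN1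
  have hN0 : (0 : ℝ) < N := by linarith
  have hx : R + 1 ≤ (N : ℝ) ^ (ε / 2) := hN₁ N (le_trans (le_max_left _ _) hN)
  have hT0 : 0 < T := by
    have h2 : 0 < T * (N : ℝ) ^ α := lt_of_lt_of_le (by positivity) hT1
    exact pos_of_mul_pos_left h2 (by positivity)
  have hC1 : (1 : ℝ) ≤ (N : ℝ) ^ C := one_le_pow₀ hN1'
  have hcC : c0 / (N : ℝ) ^ C ≤ c0 := div_le_self hc0.le hC1
  have hD0 : (0 : ℝ) < (N : ℝ) ^ D := by positivity
  -- the derivatives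
  have hf : ∀ x ∈ Icc (N : ℝ) (2 * N + 1), ∃ y : ℝ, HasDerivAt (φ 0) y x ∧
      |y| ≤ (1 + c0) * W * (T * (N : ℝ) ^ (α - 1)) := by
    intro x hxI
    refine ⟨φ 1 x, hφ.1 0 (Nat.zero_le _) x hxI, ?_⟩
    have h2 := hφ.2 0 (Nat.zero_le _) x hxI
    simp only [Finset.range_zero, Finset.prod_empty, mul_one, Nat.cast_zero, sub_zero, zero_add] at h2
    have hx0 : 0 < x := by linarith [hxI.1]
    have h3 := pow_le_three hN1 (b := α - 1) hxI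
    have h4 : 0 ≤ x ^ (α - 1) := by positivity
    have h5 : |φ 1 x| ≤ (1 + c0) * (T * x ^ (α - 1)) := by
      have h6 : |φ 1 x| ≤ |φ 1 x - T * x ^ (α - 1)| + |T * x ^ (α - 1)| := by
        have := abs_add_le (φ 1 x - T * x ^ (α - 1)) (T * x ^ (α - 1))
        rwa [sub_add_cancel] at this
      rw [abs_of_nonneg (by positivity : 0 ≤ T * x ^ (α - 1))] at h6
      have h7 : c0 / (N : ℝ) ^ C * (T * x ^ (α - 1)) ≤ c0 * (T * x ^ (α - 1)) :=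
        mul_le_mul_of_nonneg_right hcC (by positivity)
      linarith
    calc |φ 1 x| ≤ (1 + c0) * (T * x ^ (α - 1)) := h5
      _ ≤ (1 + c0) * (T * (W * (N : ℝ) ^ (α - 1))) := by rw [hW]; gcongr
      _ = _ := by ring
  have hgd : ∀ x ∈ Icc (N : ℝ) (2 * N + 1), ∃ y : ℝ, HasDerivAt g y x ∧ |y| ≤ W * (N : ℝ) ^ (α - 1) := by
    intro x hxI
    have hx0 : 0 < x := by linarith [hxI.1]
    refine ⟨x ^ (α - 1), hg x hx0, ?_⟩
    rw [abs_of_nonneg (by positivity), hW]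
    exact pow_le_three hN1 hxI
  have hmain := h1 N hN1 T hT1 φ hφ.1 hφ.2 g hg
  set E := {u : ℝ | u ∈ Icc (0 : ℝ) 1 ∧ ∃ t : ℝ, 0 ≤ t ∧ t * (N : ℝ) ^ α ≤ (N : ℝ) ^ B' ∧
        ∃ Q : Polynomial ℝ, Q.natDegree ≤ d ∧ ∃ N1 N2 : ℕ, N ≤ N1 ∧ N1 ≤ N2 ∧ N2 ≤ 2 * N ∧
        ((N2 : ℝ) - N1 + 1) ^ (1 / 2 : ℝ) * (N : ℝ) ^ (ε / 2) < ‖∑ n ∈ Finset.Icc N1 N2,
          Complex.exp (2 * (Real.pi : ℂ) * Complex.I *
            ((φ 0 ((n : ℝ) + u) + t * g ((n : ℝ) + u) + Q.eval (n : ℝ) : ℝ) : ℂ))‖} with hE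
  have hsub : (⋃ k ∈ F, Ico ((k : ℝ) / (N : ℝ) ^ D) (((k : ℝ) + 1) / (N : ℝ) ^ D)) ⊆ E := by
    intro v hv
    simp only [Set.mem_iUnion] at hv
    obtain ⟨k, hk, hv1, hv2⟩ := hv
    obtain ⟨hkD, u, hu1, hu01, hbad⟩ := hF k hk
    have hv01 : v ∈ Icc (0 : ℝ) 1 := by
      constructor
      · exact le_trans (by positivity) hv1
      · have a1 : ((k : ℝ) + 1) / (N : ℝ) ^ D ≤ 1 := by
          rw [div_le_one hD0]
          exact_mod_cast hkD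
        linarith
    have huv : |u - v| ≤ 1 / (N : ℝ) ^ D := by
      have e1 : ((k : ℝ) + 1) / (N : ℝ) ^ D = (k : ℝ) / (N : ℝ) ^ D + 1 / (N : ℝ) ^ D := by ring
      rw [e1] at hu1 hv2
      rw [abs_le]
      constructor <;> linarith [hu1.1, hu1.2]
    unfold Good at hbad
    push Not at hbad
    obtain ⟨t, ht0, ht1, Q, hQ, N1, N2, a1, a2, a3, a4⟩ := hbad
    refine ⟨hv01, t, ht0, ht1.trans (pow_le_pow_right₀ hN1' hB), Q, hQ, N1, N2, a1, a2, a3, ?_⟩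
    have h2 := S_stab ht0 (Q := Q) hu01 hv01 (N := N) (N1 := N1) (N2 := N2) a1 a3 hf hgd
    have h3 : ((N : ℝ) + 1) * (2 * Real.pi * (((1 + c0) * W * (T * (N : ℝ) ^ (α - 1)) + t * (W * (N : ℝ) ^ (α - 1))) *
        |u - v|)) ≤ R := by
      have b1 : T * (N : ℝ) ^ (α - 1) ≤ (N : ℝ) ^ D / N := by
        rw [rpow_sub_one' hN1, ← mul_div_assoc]
        gcongr
      have b2 : t * (N : ℝ) ^ (α - 1) ≤ (N : ℝ) ^ D / N := by
        rw [rpow_sub_one' hN1, ← mul_div_assoc]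
        gcongr
        exact ht1.trans (pow_le_pow_right₀ hN1' hBD)
      have b3 : (1 + c0) * W * (T * (N : ℝ) ^ (α - 1)) + t * (W * (N : ℝ) ^ (α - 1)) ≤ (2 + c0) * W * ((N : ℝ) ^ D / N) := by
        calc (1 + c0) * W * (T * (N : ℝ) ^ (α - 1)) + t * (W * (N : ℝ) ^ (α - 1))
            = (1 + c0) * W * (T * (N : ℝ) ^ (α - 1)) + W * (t * (N : ℝ) ^ (α - 1)) := by ring
          _ ≤ (1 + c0) * W * ((N : ℝ) ^ D / N) + W * ((N : ℝ) ^ D / N) := by gcongr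
          _ = _ := by ring
      have b4 : ((1 + c0) * W * (T * (N : ℝ) ^ (α - 1)) + t * (W * (N : ℝ) ^ (α - 1))) * |u - v| ≤ (2 + c0) * W / N := by
        calc _ ≤ ((2 + c0) * W * ((N : ℝ) ^ D / N)) * (1 / (N : ℝ) ^ D) := by
              apply mul_le_mul b3 huv (abs_nonneg _) (by positivity)
          _ = _ := by field_simp
      have hpi := Real.pi_pos
      calc _ ≤ ((N : ℝ) + N) * (2 * Real.pi * ((2 + c0) * W / N)) := by
            apply mul_le_mul (by linarith) _ _ (by positivity)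
            · exact mul_le_mul_of_nonneg_left b4 (by positivity)
            · positivity
        _ = R := by rw [hR]; field_simp; ring
    have h4 : ‖S (φ 0) g t Q u N1 N2‖ ≤ ‖S (φ 0) g t Q v N1 N2‖ + R := by
      have h5 := norm_sub_norm_le (S (φ 0) g t Q u N1 N2) (S (φ 0) g t Q v N1 N2)
      linarith
    have h6 : (1 : ℝ) ≤ ((N2 : ℝ) - N1 + 1) ^ (1 / 2 : ℝ) := by
      apply Real.one_le_rpow _ (by norm_num)
      have : (N1 : ℝ) ≤ N2 := by exact_mod_cast a2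
      linarith
    have h7 : (N : ℝ) ^ ε = (N : ℝ) ^ (ε / 2) * (N : ℝ) ^ (ε / 2) := by
      rw [← Real.rpow_add hN0]
      congr 1
      ring
    have h8 : (N : ℝ) ^ (ε / 2) + R ≤ (N : ℝ) ^ ε := by
      rw [h7]
      nlinarith
    show ((N2 : ℝ) - N1 + 1) ^ (1 / 2 : ℝ) * (N : ℝ) ^ (ε / 2) < ‖S (φ 0) g t Q v N1 N2‖
    nlinarith
  have hvol : volume (⋃ k ∈ F, Ico ((k : ℝ) / (N : ℝ) ^ D) (((k : ℝ) + 1) / (N : ℝ) ^ D)) =
      ENNReal.ofReal ((F.card : ℝ) / (N : ℝ) ^ D) := by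
    rw [measure_biUnion_finset]
    · have e1 : ∀ k ∈ F, volume (Ico ((k : ℝ) / (N : ℝ) ^ D) (((k : ℝ) + 1) / (N : ℝ) ^ D)) =
          ENNReal.ofReal (1 / (N : ℝ) ^ D) := by
        intro k _
        rw [Real.volume_Ico]
        congr 1
        ring
      rw [Finset.sum_congr rfl e1, Finset.sum_const, nsmul_eq_mul, ← ENNReal.ofReal_natCast,
        ← ENNReal.ofReal_mul (Nat.cast_nonneg _)]
      congr 1
      ring
    · intro i _ j _ hij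
      refine Set.disjoint_left.2 fun x hx hy => hij ?_
      obtain ⟨a1, a2⟩ := hx
      obtain ⟨b1, b2⟩ := hy
      have c1 : (i : ℝ) < j + 1 := by
        have := lt_of_le_of_lt a1 b2
        rwa [div_lt_div_iff_of_pos_right hD0] at this
      have c2 : (j : ℝ) < i + 1 := by
        have := lt_of_le_of_lt b1 a2
        rwa [div_lt_div_iff_of_pos_right hD0] at this
      have d1 : i < j + 1 := by exact_mod_cast c1
      have d2 : j < i + 1 := by exact_mod_cast c2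
      omega
    · intro i _
      exact measurableSet_Ico
  have h9 : ENNReal.ofReal ((F.card : ℝ) / (N : ℝ) ^ D) ≤ ENNReal.ofReal (|K| / (N : ℝ) ^ B') := by
    rw [← hvol]
    refine (measure_mono hsub).trans (hmain.trans (ENNReal.ofReal_le_ofReal ?_))
    have := le_abs_self K
    gcongr
  have h10 := (ENNReal.ofReal_le_ofReal_iff (by positivity)).1 h9
  rw [div_le_iff₀ hD0] at h10
  calc (F.card : ℝ) ≤ |K| / (N : ℝ) ^ B' * (N : ℝ) ^ D := h10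
    _ = _ := by ring

end Pool.Agent.N407.EP
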