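import Pool.Agent.N407.EP.Dim

set_option autoImplicit false

/-!
# The dimension of the set of the exceptional translates, conclusion
-/

namespace Pool.Agent.N407.EP

open Set MeasureTheory Filter

/-- the number of the intervals with an exceptional translate, for all the functions of a scale -/
theorem scale_all (ε : ℝ) (hε : 0 < ε) (B d : ℕ) : ∃ A C P : ℕ, ∀ α : ℝ, (∀ m : ℕ, α ≠ m + 1) →
    ∃ (c0 K : ℝ) (N₀ : ℕ), 0 < c0 ∧ 0 ≤ K ∧ 1 ≤ N₀ ∧ ∀ D : ℕ, B ≤ D → ∀ (T : ℕ → ℕ → ℝ) (φ : ℕ → ℕ → ℕ → ℝ → ℝ)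
      (g : ℝ → ℝ), (∀ x : ℝ, 0 < x → HasDerivAt g (x ^ (α - 1)) x) →
      (∀ N j : ℕ, 1 ≤ N → j < N ^ B → (N : ℝ) ^ A ≤ T N j * (N : ℝ) ^ α ∧ T N j * (N : ℝ) ^ α ≤ (N : ℝ) ^ D ∧
        Near α (c0 / (N : ℝ) ^ C) P N (T N j) (φ N j)) →
      ∀ N : ℕ, N₀ ≤ N → ∀ F : Finset ℕ, (∀ k ∈ F, k < N ^ D ∧ ∃ u ∈ Icc ((k : ℝ) / (N : ℝ) ^ D) (((k : ℝ) + 1) / (N : ℝ) ^ D),
        u ∈ Icc (0 : ℝ) 1 ∧ ∃ j < N ^ B, ¬ Good ε α B d N (φ N j 0) g u) →
      (F.card : ℝ) * (1 / (N : ℝ) ^ D) ^ (1 - (B : ℝ) / D) ≤ K / (N : ℝ) ^ 2 := by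
  obtain ⟨A, C, P, h0⟩ := scale ε hε B (2 * B + 2) d (by omega)
  refine ⟨A, C, P, fun α hα => ?_⟩
  obtain ⟨c0, K, N₀, hc0, hK, hN₀, h1⟩ := h0 α hα
  refine ⟨c0, K, N₀, hc0, hK, hN₀, fun D hBD T φ g hg hφ N hN F hF => ?_⟩
  classical
  have hN1 : 1 ≤ N := hN₀.trans hN
  have hN1' : (1 : ℝ) ≤ N := by exact_mod_cast hN1
  have hN0 : (0 : ℝ) < N := by linarith
  have hsub : F ⊆ (Finset.range (N ^ B)).biUnion (fun j => F.filter (fun k : ℕ =>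
      ∃ u ∈ Icc ((k : ℝ) / (N : ℝ) ^ D) (((k : ℝ) + 1) / (N : ℝ) ^ D), u ∈ Icc (0 : ℝ) 1 ∧
        ¬ Good ε α B d N (φ N j 0) g u)) := by
    intro k hk
    obtain ⟨-, u, hu, hu01, j, hj, hbad⟩ := hF k hk
    rw [Finset.mem_biUnion]
    exact ⟨j, Finset.mem_range.2 hj, Finset.mem_filter.2 ⟨hk, u, hu, hu01, hbad⟩⟩
  have h2 : ∀ j ∈ Finset.range (N ^ B), ((F.filter (fun k : ℕ =>
      ∃ u ∈ Icc ((k : ℝ) / (N : ℝ) ^ D) (((k : ℝ) + 1) / (N : ℝ) ^ D), u ∈ Icc (0 : ℝ) 1 ∧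
        ¬ Good ε α B d N (φ N j 0) g u)).card : ℝ) ≤ K * (N : ℝ) ^ D / (N : ℝ) ^ (2 * B + 2) := by
    intro j hj
    rw [Finset.mem_range] at hj
    obtain ⟨g1, g2, g3⟩ := hφ N j hN1 hj
    refine h1 D hBD N hN (T N j) g1 g2 (φ N j) g3 g hg _ (fun k hk => ?_)
    rw [Finset.mem_filter] at hk
    exact ⟨(hF k hk.1).1, hk.2⟩
  have h3 : (F.card : ℝ) ≤ (N : ℝ) ^ B * (K * (N : ℝ) ^ D / (N : ℝ) ^ (2 * B + 2)) := by
    have e1 := (Finset.card_le_card hsub).trans Finset.card_biUnion_le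
    have e2 : (F.card : ℝ) ≤ ∑ j ∈ Finset.range (N ^ B), ((F.filter (fun k : ℕ =>
      ∃ u ∈ Icc ((k : ℝ) / (N : ℝ) ^ D) (((k : ℝ) + 1) / (N : ℝ) ^ D), u ∈ Icc (0 : ℝ) 1 ∧
        ¬ Good ε α B d N (φ N j 0) g u)).card : ℝ) := by exact_mod_cast e1
    refine e2.trans ((Finset.sum_le_sum h2).trans (le_of_eq ?_))
    rw [Finset.sum_const, Finset.card_range, nsmul_eq_mul]
    push_cast
    ring
  rcases Nat.eq_zero_or_pos D with hD | hD
  · -- `D = 0`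
    have hB0 : B = 0 := by omega
    subst hB0
    rw [hD] at h3 ⊢
    simp only [pow_zero, mul_one, one_mul, Nat.mul_zero, zero_add, Nat.cast_zero, div_zero, sub_zero, Real.rpow_one,
      div_one] at h3 ⊢
    exact h3
  have hDr : (0 : ℝ) < D := by exact_mod_cast hD
  have h4 : (1 / (N : ℝ) ^ D) ^ (1 - (B : ℝ) / D) = 1 / (N : ℝ) ^ (D - B) := by
    have e1 : (1 / (N : ℝ) ^ D) = (N : ℝ) ^ (-(D : ℝ)) := by
      rw [Real.rpow_neg hN0.le, Real.rpow_natCast, one_div]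
    rw [e1, ← Real.rpow_mul hN0.le]
    have e2 : -(D : ℝ) * (1 - (B : ℝ) / D) = -((D - B : ℕ) : ℝ) := by
      rw [Nat.cast_sub hBD]
      field_simp
    rw [e2, Real.rpow_neg hN0.le, Real.rpow_natCast, one_div]
  rw [h4]
  calc (F.card : ℝ) * (1 / (N : ℝ) ^ (D - B)) ≤ (N : ℝ) ^ B * (K * (N : ℝ) ^ D / (N : ℝ) ^ (2 * B + 2)) * (1 / (N : ℝ) ^ (D - B)) :=
        mul_le_mul_of_nonneg_right h3 (by positivity)
    _ = K / (N : ℝ) ^ 2 := by
        have e1 : (N : ℝ) ^ D = (N : ℝ) ^ (D - B) * (N : ℝ) ^ B := by rw [← pow_add, Nat.sub_add_cancel hBD]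
        have e2 : (N : ℝ) ^ (2 * B + 2) = (N : ℝ) ^ B * (N : ℝ) ^ B * (N : ℝ) ^ 2 := by ring
        rw [e1, e2]
        have n1 : (N : ℝ) ^ B ≠ 0 := by positivity
        have n2 : (N : ℝ) ^ (D - B) ≠ 0 := by positivity
        have n3 : (N : ℝ) ^ 2 ≠ 0 := by positivity
        field_simp

/-- **The dimension of the set of the exceptional translates.** -/
theorem dim_main (ε : ℝ) (hε : 0 < ε) (B d : ℕ) : ∃ A C P : ℕ, ∀ α : ℝ, (∀ m : ℕ, α ≠ m + 1) →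
    ∃ c0 : ℝ, 0 < c0 ∧ ∀ D : ℕ, B < D → ∀ (T : ℕ → ℕ → ℝ) (φ : ℕ → ℕ → ℕ → ℝ → ℝ)
      (g : ℝ → ℝ), (∀ x : ℝ, 0 < x → HasDerivAt g (x ^ (α - 1)) x) →
      (∀ N j : ℕ, 1 ≤ N → j < N ^ B → (N : ℝ) ^ A ≤ T N j * (N : ℝ) ^ α ∧ T N j * (N : ℝ) ^ α ≤ (N : ℝ) ^ D ∧
        Near α (c0 / (N : ℝ) ^ C) P N (T N j) (φ N j)) →
      dimH {u : ℝ | u ∈ Icc (0 : ℝ) 1 ∧ ¬ ∀ᶠ N : ℕ in atTop, ∀ j < N ^ B, Good ε α B d N (φ N j 0) g u} ≤
        ENNReal.ofReal (1 - (B : ℝ) / D) := by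
  obtain ⟨A, C, P, h0⟩ := scale_all ε hε B d
  refine ⟨A, C, P, fun α hα => ?_⟩
  obtain ⟨c0, K, N₀, hc0, hK, hN₀, h1⟩ := h0 α hα
  refine ⟨c0, hc0, fun D hBD T φ g hg hφ => ?_⟩
  classical
  have hD : 0 < D := by omega
  have hDr : (0 : ℝ) < D := by exact_mod_cast hD
  obtain ⟨s, hs⟩ : ∃ s : ℝ, s = 1 - (B : ℝ) / D := ⟨_, rfl⟩
  have hs0 : 0 < s := by
    rw [hs, sub_pos, div_lt_one hDr]
    exact_mod_cast hBD
  rw [← hs]
  obtain ⟨Bad, hBad⟩ : ∃ Bad : ℕ → ℕ → Prop, Bad = fun N k => N₀ ≤ N ∧ k < N ^ D ∧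
      ∃ u ∈ Icc ((k : ℝ) / (N : ℝ) ^ D) (((k : ℝ) + 1) / (N : ℝ) ^ D), u ∈ Icc (0 : ℝ) 1 ∧
        ∃ j < N ^ B, ¬ Good ε α B d N (φ N j 0) g u := ⟨_, rfl⟩
  obtain ⟨U, hU⟩ : ∃ U : ℕ × ℕ → Set ℝ, U = fun p => if Bad p.1 p.2 then
      Icc ((p.2 : ℝ) / (p.1 : ℝ) ^ D) (((p.2 : ℝ) + 1) / (p.1 : ℝ) ^ D) else ∅ := ⟨_, rfl⟩
  have hsum : ∑' p, Metric.ediam (U p) ^ s ≠ ⊤ := by
    rw [ENNReal.tsum_prod']
    have hrow : ∀ N : ℕ, ∑' k, Metric.ediam (U (N, k)) ^ s ≤ ENNReal.ofReal (K * (1 / (N : ℝ) ^ 2)) := by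
      intro N
      rcases lt_or_ge N N₀ with hN | hN
      · have : ∀ k, Metric.ediam (U (N, k)) ^ s = 0 := by
          intro k
          have hnb : ¬ Bad N k := by
            rw [hBad]
            rintro ⟨h, -⟩
            omega
          rw [hU]
          simp only [hnb, if_false, Metric.ediam_empty]
          exact ENNReal.zero_rpow_of_pos hs0
        simp only [this, tsum_zero]
        exact zero_le
      · have hN1 : 1 ≤ N := hN₀.trans hN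
        have hN0 : (0 : ℝ) < N := by exact_mod_cast hN1
        have hz : ∀ k ∉ (Finset.range (N ^ D)).filter (fun k => Bad N k), Metric.ediam (U (N, k)) ^ s = 0 := by
          intro k hk
          have hnb : ¬ Bad N k := by
            intro hb
            apply hk
            rw [Finset.mem_filter, Finset.mem_range]
            rw [hBad] at hb
            exact ⟨hb.2.1, by rw [hBad]; exact hb⟩
          rw [hU]
          simp only [hnb, if_false, Metric.ediam_empty]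
          exact ENNReal.zero_rpow_of_pos hs0
        rw [tsum_eq_sum hz]
        have h2 : ∀ k ∈ (Finset.range (N ^ D)).filter (fun k => Bad N k), Metric.ediam (U (N, k)) ^ s ≤
            ENNReal.ofReal ((1 / (N : ℝ) ^ D) ^ s) := by
          intro k hk
          rw [Finset.mem_filter] at hk
          rw [hU]
          simp only [hk.2, if_true]
          rw [Real.ediam_Icc, ← ENNReal.ofReal_rpow_of_nonneg (by positivity) hs0.le]
          refine ENNReal.rpow_le_rpow (ENNReal.ofReal_le_ofReal (le_of_eq ?_)) hs0.le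
          ring
        refine (Finset.sum_le_sum h2).trans ?_
        rw [Finset.sum_const, nsmul_eq_mul, ← ENNReal.ofReal_natCast, ← ENNReal.ofReal_mul (Nat.cast_nonneg _)]
        apply ENNReal.ofReal_le_ofReal
        have h3 := h1 D hBD.le T φ g hg hφ N hN ((Finset.range (N ^ D)).filter (fun k => Bad N k)) (by
          intro k hk
          rw [Finset.mem_filter, hBad] at hk
          exact hk.2.2)
        rw [← hs] at h3
        calc _ ≤ K / (N : ℝ) ^ 2 := h3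
          _ = _ := by ring
    refine ne_top_of_le_ne_top ?_ (ENNReal.tsum_le_tsum hrow)
    rw [← ENNReal.ofReal_tsum_of_nonneg (fun N => by positivity)]
    · exact ENNReal.ofReal_ne_top
    · have := (Real.summable_one_div_nat_pow (p := 2)).mpr (by norm_num)
      exact this.mul_left K
  refine le_trans (dimH_mono ?_) (Pool.Agent.R942.AX.dimH_limsup U hs0 hsum)
  rintro u ⟨hu, hbad⟩
  rw [not_eventually] at hbad
  have hinf : {N : ℕ | N₀ ≤ N ∧ ∃ j < N ^ B, ¬ Good ε α B d N (φ N j 0) g u}.Infinite := by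
    rw [← Nat.frequently_atTop_iff_infinite]
    refine (hbad.and_eventually (eventually_ge_atTop N₀)).mono ?_
    rintro N ⟨h2, h3⟩
    refine ⟨h3, ?_⟩
    push Not at h2
    exact h2
  show {p | u ∈ U p}.Infinite
  refine Set.Infinite.of_image Prod.fst (hinf.mono ?_)
  rintro N ⟨hN, j, hj, hg2⟩
  have hN1 : 1 ≤ N := hN₀.trans hN
  have hN1' : (1 : ℝ) ≤ N := by exact_mod_cast hN1
  have hND : (0 : ℝ) < (N : ℝ) ^ D := by positivity
  have hND1 : 1 ≤ N ^ D := Nat.one_le_pow _ _ hN1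
  -- the interval with `u`
  obtain ⟨k, hk, hk1, hk2⟩ : ∃ k : ℕ, k < N ^ D ∧ (k : ℝ) / (N : ℝ) ^ D ≤ u ∧ u ≤ ((k : ℝ) + 1) / (N : ℝ) ^ D := by
    rcases eq_or_lt_of_le hu.2 with h1' | h1'
    · refine ⟨N ^ D - 1, by omega, ?_, ?_⟩
      · rw [h1', div_le_one hND, Nat.cast_sub hND1]
        push_cast
        linarith
      · rw [h1', le_div_iff₀ hND, Nat.cast_sub hND1]
        push_cast
        linarith
    · refine ⟨⌊u * (N : ℝ) ^ D⌋₊, ?_, ?_, ?_⟩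
      · rw [Nat.floor_lt (mul_nonneg hu.1 hND.le)]
        push_cast
        nlinarith
      · rw [div_le_iff₀ hND]
        exact Nat.floor_le (mul_nonneg hu.1 hND.le)
      · rw [le_div_iff₀ hND]
        exact (Nat.lt_floor_add_one _).le
  refine ⟨(N, k), ?_, rfl⟩
  show u ∈ U (N, k)
  have hb : Bad N k := by
    rw [hBad]
    exact ⟨hN, hk, u, ⟨hk1, hk2⟩, hu, j, hj, hg2⟩
  rw [hU]
  simp only [hb, if_true]
  exact ⟨hk1, hk2⟩

end Pool.Agent.N407.EP
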