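import Pool.Agent.N407.EP.Dim

set_option autoImplicit false

/-!
# Random and metric translates
-/

namespace Pool.Agent.N407.EP

open Set MeasureTheory Filter

/-- the measure of the exceptional translates at one scale, for one function -/
theorem bad_vol (ε : ℝ) (hε : 0 < ε) (B d : ℕ) : ∃ A C P : ℕ, ∀ α : ℝ, (∀ m : ℕ, α ≠ m + 1) →
    ∃ c0 K : ℝ, 0 < c0 ∧ 0 ≤ K ∧ ∀ N : ℕ, 1 ≤ N → ∀ T : ℝ, (N : ℝ) ^ A ≤ T * (N : ℝ) ^ α →
      ∀ φ : ℕ → ℝ → ℝ, Near α (c0 / (N : ℝ) ^ C) P N T φ → ∀ g : ℝ → ℝ, (∀ x : ℝ, 0 < x → HasDerivAt g (x ^ (α - 1)) x) →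
      volume {u : ℝ | u ∈ Icc (0 : ℝ) 1 ∧ ¬ Good ε α B d N (φ 0) g u} ≤ ENNReal.ofReal (K / (N : ℝ) ^ (2 * B + 2)) := by
  obtain ⟨A, C, P, h0⟩ := Pool.Agent.Y933.KI.final2 ε hε (2 * B + 2) d
  refine ⟨A, C, P, fun α hα => ?_⟩
  obtain ⟨c0, K, hc0, h1⟩ := h0 α hα
  refine ⟨c0, |K|, hc0, abs_nonneg _, fun N hN T hT φ hφ g hg => ?_⟩
  have hN1' : (1 : ℝ) ≤ N := by exact_mod_cast hN
  refine (measure_mono ?_).trans ((h1 N hN T hT φ hφ.1 hφ.2 g hg).trans (ENNReal.ofReal_le_ofReal ?_))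
  · rintro u ⟨hu, hbad⟩
    unfold Good at hbad
    push Not at hbad
    obtain ⟨t, ht0, ht1, Q, hQ, N1, N2, a1, a2, a3, a4⟩ := hbad
    exact ⟨hu, t, ht0, ht1.trans (pow_le_pow_right₀ hN1' (by omega)), Q, hQ, N1, N2, a1, a2, a3, a4⟩
  · have := le_abs_self K
    gcongr

/-- **Random translates.** -/
theorem random (ε : ℝ) (hε : 0 < ε) (B d : ℕ) : ∃ A C P : ℕ, ∀ α : ℝ, (∀ m : ℕ, α ≠ m + 1) →
    ∃ c0 : ℝ, 0 < c0 ∧ ∀ g : ℝ → ℝ, (∀ x : ℝ, 0 < x → HasDerivAt g (x ^ (α - 1)) x) → ∀ T : ℕ → ℕ → ℝ,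
      ∀ φ : ℕ → ℕ → ℕ → ℝ → ℝ,
      (∀ N j : ℕ, 1 ≤ N → j < N ^ B → (N : ℝ) ^ A ≤ T N j * (N : ℝ) ^ α ∧
        Near α (c0 / (N : ℝ) ^ C) P N (T N j) (φ N j)) →
      ∀ {Ω : Type} [MeasurableSpace Ω] (μ : Measure Ω) (X : ℕ → ℕ → Ω → ℝ) (L : ℝ), 0 ≤ L →
        (∀ N j : ℕ, 1 ≤ N → j < N ^ B → ∀ S : Set ℝ, MeasurableSet S →
          μ {ω | X N j ω ∈ Icc (0 : ℝ) 1 ∧ X N j ω ∈ S} ≤ ENNReal.ofReal (L * (N : ℝ) ^ B) * volume S) →
        ∀ᵐ ω ∂μ, ∀ᶠ N : ℕ in atTop, ∀ j < N ^ B, X N j ω ∈ Icc (0 : ℝ) 1 → Good ε α B d N (φ N j 0) g (X N j ω) := by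
  obtain ⟨A, C, P, h0⟩ := bad_vol ε hε B d
  refine ⟨A, C, P, fun α hα => ?_⟩
  obtain ⟨c0, K, hc0, hK, h1⟩ := h0 α hα
  refine ⟨c0, hc0, fun g hg T φ hφ Ω _ μ X L hL hX => ?_⟩
  obtain ⟨G, hG⟩ : ∃ G : ℕ → Set Ω, G = fun N => if 1 ≤ N then {ω | ∃ j < N ^ B, X N j ω ∈ Icc (0 : ℝ) 1 ∧
      ¬ Good ε α B d N (φ N j 0) g (X N j ω)} else ∅ := ⟨_, rfl⟩
  have hGN : ∀ N : ℕ, μ (G N) ≤ ENNReal.ofReal (L * K * (1 / (N : ℝ) ^ 2)) := by
    intro N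
    by_cases hN : 1 ≤ N
    · have hN1' : (1 : ℝ) ≤ N := by exact_mod_cast hN
      have hN0 : (0 : ℝ) < N := by linarith
      have e : G N ⊆ ⋃ j ∈ Finset.range (N ^ B), {ω | X N j ω ∈ Icc (0 : ℝ) 1 ∧ X N j ω ∈
          toMeasurable volume {u : ℝ | u ∈ Icc (0 : ℝ) 1 ∧ ¬ Good ε α B d N (φ N j 0) g u}} := by
        rw [hG]
        simp only [hN, if_true]
        rintro ω ⟨j, hj, h2, h3⟩
        simp only [Set.mem_iUnion]
        exact ⟨j, Finset.mem_range.2 hj, h2, subset_toMeasurable _ _ ⟨h2, h3⟩⟩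
      refine (measure_mono e).trans ((measure_biUnion_finset_le _ _).trans ?_)
      have h2 : ∀ j ∈ Finset.range (N ^ B), μ {ω | X N j ω ∈ Icc (0 : ℝ) 1 ∧ X N j ω ∈
          toMeasurable volume {u : ℝ | u ∈ Icc (0 : ℝ) 1 ∧ ¬ Good ε α B d N (φ N j 0) g u}} ≤
          ENNReal.ofReal (L * (N : ℝ) ^ B * (K / (N : ℝ) ^ (2 * B + 2))) := by
        intro j hj
        rw [Finset.mem_range] at hj
        refine (hX N j hN hj _ (measurableSet_toMeasurable _ _)).trans ?_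
        rw [measure_toMeasurable]
        have e3 : ENNReal.ofReal (L * (N : ℝ) ^ B * (K / (N : ℝ) ^ (2 * B + 2))) =
            ENNReal.ofReal (L * (N : ℝ) ^ B) * ENNReal.ofReal (K / (N : ℝ) ^ (2 * B + 2)) :=
          ENNReal.ofReal_mul (by positivity)
        rw [e3]
        exact mul_le_mul' le_rfl (h1 N hN (T N j) (hφ N j hN hj).1 (φ N j) (hφ N j hN hj).2 g hg)
      refine (Finset.sum_le_sum h2).trans ?_
      rw [Finset.sum_const, Finset.card_range, nsmul_eq_mul, ← ENNReal.ofReal_natCast,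
        ← ENNReal.ofReal_mul (Nat.cast_nonneg _)]
      apply ENNReal.ofReal_le_ofReal
      have e2 : (N : ℝ) ^ (2 * B + 2) = (N : ℝ) ^ B * (N : ℝ) ^ B * (N : ℝ) ^ 2 := by ring
      rw [e2]
      push_cast
      have n1 : (N : ℝ) ^ B ≠ 0 := by positivity
      have n3 : (N : ℝ) ^ 2 ≠ 0 := by positivity
      apply le_of_eq
      field_simp
    · rw [hG]
      simp only [hN, if_false, measure_empty]
      exact zero_le
  have hsum : ∑' N, μ (G N) ≠ ⊤ := by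
    refine ne_top_of_le_ne_top ?_ (ENNReal.tsum_le_tsum hGN)
    rw [← ENNReal.ofReal_tsum_of_nonneg (fun N => by positivity)]
    · exact ENNReal.ofReal_ne_top
    · have := (Real.summable_one_div_nat_pow (p := 2)).mpr (by norm_num)
      exact this.mul_left (L * K)
  filter_upwards [ae_eventually_notMem hsum] with ω hω
  filter_upwards [hω, eventually_ge_atTop 1] with N hN hN1 j hj hX01
  by_contra hcon
  apply hN
  rw [hG]
  simp only [hN1, if_true]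
  exact ⟨j, hj, hX01, hcon⟩

/-- the density of the fractional part of `a x + b` on an interval of length `1` -/
lemma fract_density {a : ℝ} (ha : a ≠ 0) (b M : ℝ) (S : Set ℝ) :
    (volume.restrict (Icc M (M + 1))) {x | Int.fract (a * x + b) ∈ S} ≤ ENNReal.ofReal (1 + 2 / |a|) * volume S := by
  obtain ⟨y0, hy0⟩ : ∃ y0 : ℝ, y0 = min (a * M + b) (a * (M + 1) + b) := ⟨_, rfl⟩
  have hy : ∀ x ∈ Icc M (M + 1), y0 ≤ a * x + b ∧ a * x + b ≤ y0 + |a| := by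
    intro x hx
    rcases lt_or_gt_of_ne ha with h | h
    · rw [abs_of_neg h]
      have e : y0 = a * (M + 1) + b := by
        rw [hy0]
        apply min_eq_right
        nlinarith
      rw [e]
      constructor <;> nlinarith [hx.1, hx.2]
    · rw [abs_of_pos h]
      have e : y0 = a * M + b := by
        rw [hy0]
        apply min_eq_left
        nlinarith
      rw [e]
      constructor <;> nlinarith [hx.1, hx.2]
  have hsub : {x | Int.fract (a * x + b) ∈ S} ∩ Icc M (M + 1) ⊆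
      ⋃ k ∈ Finset.Icc ⌊y0⌋ ⌊y0 + |a|⌋, (fun x => a * x + (b - k)) ⁻¹' S := by
    rintro x ⟨hx, hxI⟩
    obtain ⟨h1, h2⟩ := hy x hxI
    simp only [Set.mem_iUnion]
    refine ⟨⌊a * x + b⌋, Finset.mem_Icc.2 ⟨Int.floor_le_floor h1, Int.floor_le_floor h2⟩, ?_⟩
    show a * x + (b - ⌊a * x + b⌋) ∈ S
    have e : a * x + (b - ⌊a * x + b⌋) = Int.fract (a * x + b) := by
      rw [Int.fract]
      ring
    rw [e]
    exact hx
  rw [Measure.restrict_apply' measurableSet_Icc]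
  refine (measure_mono hsub).trans ((measure_biUnion_finset_le _ _).trans ?_)
  have h3 : ∀ k ∈ Finset.Icc ⌊y0⌋ ⌊y0 + |a|⌋, volume ((fun x => a * x + (b - k)) ⁻¹' S) = ENNReal.ofReal |a⁻¹| * volume S := by
    intro k _
    have e : (fun x => a * x + (b - k)) ⁻¹' S = (fun x => a * x) ⁻¹' ((fun y => y + (b - k)) ⁻¹' S) := rfl
    rw [e, Real.volume_preimage_mul_left ha, measure_preimage_add_right]
  rw [Finset.sum_congr rfl h3, Finset.sum_const, nsmul_eq_mul, ← mul_assoc]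
  gcongr
  rw [← ENNReal.ofReal_natCast, ← ENNReal.ofReal_mul (Nat.cast_nonneg _)]
  apply ENNReal.ofReal_le_ofReal
  have ha0 : 0 < |a| := abs_pos.2 ha
  have h4 : ((Finset.Icc ⌊y0⌋ ⌊y0 + |a|⌋).card : ℝ) ≤ |a| + 2 := by
    rw [Int.card_Icc]
    have h5 : (⌊y0 + |a|⌋ : ℝ) ≤ y0 + |a| := Int.floor_le _
    have h6 : y0 < (⌊y0⌋ : ℝ) + 1 := Int.lt_floor_add_one _
    have h7 : ⌊y0⌋ ≤ ⌊y0 + |a|⌋ := Int.floor_le_floor (by linarith)
    have h8 : (((⌊y0 + |a|⌋ + 1 - ⌊y0⌋).toNat : ℕ) : ℝ) = ((⌊y0 + |a|⌋ + 1 - ⌊y0⌋ : ℤ) : ℝ) := by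
      have : ((⌊y0 + |a|⌋ + 1 - ⌊y0⌋).toNat : ℤ) = ⌊y0 + |a|⌋ + 1 - ⌊y0⌋ := Int.toNat_of_nonneg (by omega)
      exact_mod_cast this
    rw [h8]
    push_cast
    linarith
  calc ((Finset.Icc ⌊y0⌋ ⌊y0 + |a|⌋).card : ℝ) * |a⁻¹| ≤ (|a| + 2) * |a⁻¹| :=
        mul_le_mul_of_nonneg_right h4 (abs_nonneg _)
    _ = 1 + 2 / |a| := by
        rw [abs_inv]
        field_simp

end Pool.Agent.N407.EP
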