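import Mathlib

set_option autoImplicit false

/-!
# Exponential sums and small translations
-/

namespace Pool.Agent.N407.EP

open Set

/-- the sum of `e(f(n + u) + t g(n + u) + Q(n))` over `N1 ≤ n ≤ N2` -/
noncomputable def S (f g : ℝ → ℝ) (t : ℝ) (Q : Polynomial ℝ) (u : ℝ) (N1 N2 : ℕ) : ℂ :=
  ∑ n ∈ Finset.Icc N1 N2, Complex.exp (2 * (Real.pi : ℂ) * Complex.I *
    ((f ((n : ℝ) + u) + t * g ((n : ℝ) + u) + Q.eval (n : ℝ) : ℝ) : ℂ))

lemma e_sub (x y : ℝ) : ‖Complex.exp (2 * (Real.pi : ℂ) * Complex.I * (x : ℂ)) -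
    Complex.exp (2 * (Real.pi : ℂ) * Complex.I * (y : ℂ))‖ ≤ 2 * Real.pi * |x - y| := by
  have h1 : Complex.exp (2 * (Real.pi : ℂ) * Complex.I * (x : ℂ)) - Complex.exp (2 * (Real.pi : ℂ) * Complex.I * (y : ℂ)) =
      Complex.exp (Complex.I * ((2 * Real.pi * y : ℝ) : ℂ)) *
        (Complex.exp (Complex.I * ((2 * Real.pi * (x - y) : ℝ) : ℂ)) - 1) := by
    rw [mul_sub, ← Complex.exp_add, mul_one]
    congr 2
    · push_cast
      ring
    · push_cast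
      ring
  rw [h1, norm_mul]
  have h2 : ‖Complex.exp (Complex.I * ((2 * Real.pi * y : ℝ) : ℂ))‖ = 1 := by
    rw [mul_comm]
    exact Complex.norm_exp_ofReal_mul_I _
  rw [h2, one_mul]
  refine (Real.norm_exp_I_mul_ofReal_sub_one_le).trans ?_
  rw [Real.norm_eq_abs, abs_mul, abs_of_pos Real.two_pi_pos]

/-- a small translation changes the sum by little -/
lemma S_stab {f g : ℝ → ℝ} {t : ℝ} (ht : 0 ≤ t) {Q : Polynomial ℝ} {u v L M : ℝ} (hu : u ∈ Icc (0 : ℝ) 1) (hv : v ∈ Icc (0 : ℝ) 1)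
    {N N1 N2 : ℕ} (h1 : N ≤ N1) (h3 : N2 ≤ 2 * N)
    (hf : ∀ x ∈ Icc (N : ℝ) (2 * N + 1), ∃ y : ℝ, HasDerivAt f y x ∧ |y| ≤ L)
    (hg : ∀ x ∈ Icc (N : ℝ) (2 * N + 1), ∃ y : ℝ, HasDerivAt g y x ∧ |y| ≤ M) :
    ‖S f g t Q u N1 N2 - S f g t Q v N1 N2‖ ≤ ((N : ℝ) + 1) * (2 * Real.pi * ((L + t * M) * |u - v|)) := by
  have hmem : ∀ n ∈ Finset.Icc N1 N2, ∀ w ∈ Icc (0 : ℝ) 1, (n : ℝ) + w ∈ Icc (N : ℝ) (2 * N + 1) := by
    intro n hn w hw
    rw [Finset.mem_Icc] at hn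
    have a1 : (N : ℝ) ≤ n := by exact_mod_cast h1.trans hn.1
    have a2 : (n : ℝ) ≤ 2 * N := by exact_mod_cast hn.2.trans h3
    exact ⟨by linarith [hw.1], by linarith [hw.2]⟩
  have hlip : ∀ (h : ℝ → ℝ) (K : ℝ), (∀ x ∈ Icc (N : ℝ) (2 * N + 1), ∃ y : ℝ, HasDerivAt h y x ∧ |y| ≤ K) →
      ∀ x ∈ Icc (N : ℝ) (2 * N + 1), ∀ y ∈ Icc (N : ℝ) (2 * N + 1), |h x - h y| ≤ K * |x - y| := by
    intro h K hh x hx y hy
    have h5 := Convex.norm_image_sub_le_of_norm_deriv_le (f := h) (C := K) (s := Icc (N : ℝ) (2 * N + 1))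
      (fun z hz => (hh z hz).choose_spec.1.differentiableAt)
      (fun z hz => by
        obtain ⟨w, hw1, hw2⟩ := hh z hz
        rw [hw1.deriv, Real.norm_eq_abs]
        exact hw2) (convex_Icc _ _) hy hx
    rw [Real.norm_eq_abs, Real.norm_eq_abs] at h5
    exact h5
  unfold S
  rw [← Finset.sum_sub_distrib]
  have hcard : ((Finset.Icc N1 N2).card : ℝ) ≤ (N : ℝ) + 1 := by
    rw [Nat.card_Icc]
    have : N2 + 1 - N1 ≤ N + 1 := by omega
    exact_mod_cast this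
  have hterm : ∀ n ∈ Finset.Icc N1 N2, ‖Complex.exp (2 * (Real.pi : ℂ) * Complex.I *
      ((f ((n : ℝ) + u) + t * g ((n : ℝ) + u) + Q.eval (n : ℝ) : ℝ) : ℂ)) - Complex.exp (2 * (Real.pi : ℂ) * Complex.I *
      ((f ((n : ℝ) + v) + t * g ((n : ℝ) + v) + Q.eval (n : ℝ) : ℝ) : ℂ))‖ ≤ 2 * Real.pi * ((L + t * M) * |u - v|) := by
    intro n hn
    refine (e_sub _ _).trans ?_
    apply mul_le_mul_of_nonneg_left _ Real.two_pi_pos.le
    have a1 := hlip f L hf _ (hmem n hn u hu) _ (hmem n hn v hv)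
    have a2 := hlip g M hg _ (hmem n hn u hu) _ (hmem n hn v hv)
    have e1 : (n : ℝ) + u - (n + v) = u - v := by ring
    rw [e1] at a1 a2
    have e2 : f ((n : ℝ) + u) + t * g ((n : ℝ) + u) + Q.eval (n : ℝ) - (f ((n : ℝ) + v) + t * g ((n : ℝ) + v) + Q.eval (n : ℝ)) =
        (f ((n : ℝ) + u) - f ((n : ℝ) + v)) + t * (g ((n : ℝ) + u) - g ((n : ℝ) + v)) := by ring
    rw [e2]
    calc |(f ((n : ℝ) + u) - f ((n : ℝ) + v)) + t * (g ((n : ℝ) + u) - g ((n : ℝ) + v))|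
        ≤ |f ((n : ℝ) + u) - f ((n : ℝ) + v)| + |t * (g ((n : ℝ) + u) - g ((n : ℝ) + v))| := abs_add_le _ _
      _ ≤ L * |u - v| + t * (M * |u - v|) := by
        rw [abs_mul, abs_of_nonneg ht]
        exact add_le_add a1 (mul_le_mul_of_nonneg_left a2 ht)
      _ = _ := by ring
  refine (norm_sum_le _ _).trans ((Finset.sum_le_sum hterm).trans ?_)
  rw [Finset.sum_const, nsmul_eq_mul]
  have hpos : 0 ≤ 2 * Real.pi * ((L + t * M) * |u - v|) := by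
    rcases Finset.eq_empty_or_nonempty (Finset.Icc N1 N2) with he | he
    · -- the range of the derivatives is not empty
      have hN : (N : ℝ) ∈ Icc (N : ℝ) (2 * N + 1) := ⟨le_rfl, by linarith [(Nat.cast_nonneg N : (0 : ℝ) ≤ N)]⟩
      obtain ⟨y1, -, hy1⟩ := hf _ hN
      obtain ⟨y2, -, hy2⟩ := hg _ hN
      have b1 : 0 ≤ L := (abs_nonneg y1).trans hy1
      have b2 : 0 ≤ M := (abs_nonneg y2).trans hy2
      positivity
    · obtain ⟨n, hn⟩ := he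
      exact (norm_nonneg _).trans (hterm n hn)
  exact mul_le_mul_of_nonneg_right hcard hpos

lemma pow_le_three {N : ℕ} (hN : 1 ≤ N) {x b : ℝ} (hx : x ∈ Icc (N : ℝ) (2 * N + 1)) : x ^ b ≤ 3 ^ |b| * (N : ℝ) ^ b := by
  have hN1 : (1 : ℝ) ≤ N := by exact_mod_cast hN
  have hN0 : (0 : ℝ) < N := by linarith
  have hx0 : 0 < x := by linarith [hx.1]
  have h1 : 1 ≤ x / N := by rw [le_div_iff₀ hN0]; linarith [hx.1]
  have h2 : x / N ≤ 3 := by rw [div_le_iff₀ hN0]; linarith [hx.2]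
  have h3 : x ^ b = (x / N) ^ b * (N : ℝ) ^ b := by
    rw [← Real.mul_rpow (by positivity) hN0.le, div_mul_cancel₀ _ hN0.ne']
  rw [h3]
  apply mul_le_mul_of_nonneg_right _ (by positivity)
  calc (x / N) ^ b ≤ (x / N) ^ |b| := Real.rpow_le_rpow_of_exponent_le h1 (le_abs_self b)
    _ ≤ 3 ^ |b| := Real.rpow_le_rpow (by positivity) h2 (abs_nonneg b)

end Pool.Agent.N407.EP
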